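import Pool.Agent.Lib.ALLZO.Reg
import Pool.Agent.Lib.ALLZO.Perron

/-!
# JM, rows QM: sections of a valuation with finitely generated value group (OWNER: helper22)

`v` is a real valuation of `K`, `k ⊂ K`. `Sect v n Γ χ`: `Γ` is the value group of `v`, finitely
generated of rank `n`, `χ` is a homomorphism from `Γ` to the multiplicative group of `K` with
`v (χ γ) = γ`.
-/

set_option autoImplicit false

namespace Pool.Agent.JMQ

open Pool.Agent.TAO (OVal VPos Ctx0)
open Pool.Agent.ALLO (locv)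
open Pool.Agent.ALLZO (GoodBasis LR)

universe u

variable {k K : Type u} [Field k] [Field K] [Algebra k K]

/-- `χ` is a section of the valuation `v` over its value group `Γ`, finitely generated of rank
`n`. (`χ` matters only on `Γ`.) -/
structure Sect (v : OVal ℝ K) (n : ℕ) (Γ : AddSubgroup ℝ) (χ : ℝ → K) : Prop where
  fg : Γ.FG
  rk : ∃ X : Fin n → ℝ, LinearIndependent ℚ X ∧ (∀ i, X i ∈ Γ) ∧
    ∀ γ ∈ Γ, γ ∈ Submodule.span ℚ (Set.range X)
  ne : ∀ γ ∈ Γ, χ γ ≠ 0
  add : ∀ γ ∈ Γ, ∀ δ ∈ Γ, χ (γ + δ) = χ γ * χ δ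
  val : ∀ γ ∈ Γ, v (χ γ) = γ
  all : ∀ f : K, f ≠ 0 → v f ∈ Γ

/-- The field generated by the monomials. -/
def FX (k : Type u) {K : Type u} [Field k] [Field K] [Algebra k K] (Γ : AddSubgroup ℝ)
    (χ : ℝ → K) : IntermediateField k K :=
  IntermediateField.adjoin k (χ '' {γ | γ ∈ Γ})

/-- The ring of the polynomials in the monomials of value `≥ 0` and in `θ`. -/
def BX (k : Type u) {K : Type u} [Field k] [Field K] [Algebra k K] (Γ : AddSubgroup ℝ)
    (χ : ℝ → K) (θ : K) : Subalgebra k K :=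
  Algebra.adjoin k (χ '' {γ | γ ∈ Γ ∧ 0 ≤ γ} ∪ {θ})

/-- The ring of the polynomials in the monomials of value `u i` and in `θ`. -/
def BU (k : Type u) {K : Type u} [Field k] [Field K] [Algebra k K] {n : ℕ} (u : Fin n → ℝ)
    (χ : ℝ → K) (θ : K) : Subalgebra k K :=
  Algebra.adjoin k (Set.range (fun i => χ (u i)) ∪ {θ})

/-- `θ` is a root of `g = g_0 + T + g_2 T ^ 2 + ...` over `F = k(χ(Γ))`, the `g_i` with `i ≠ 1` and
`θ` have positive value, and `K = F(θ)`. -/
structure Hens (v : OVal ℝ K) (Γ : AddSubgroup ℝ) (χ : ℝ → K) (θ : K)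
    (g : Polynomial (FX k Γ χ)) : Prop where
  one : g.coeff 1 = 1
  pos : ∀ i, i ≠ 1 → VPos v (g.coeff i : K)
  root : Polynomial.aeval θ g = 0
  vpos : VPos v θ
  top : IntermediateField.adjoin (FX k Γ χ) {θ} = ⊤

end Pool.Agent.JMQ
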