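import Pool.Agent.Lib.JMQ.Base
import Pool.Agent.Lib.JMF.Dense

/-!
# JM, row QMQ2: `K / k(χ(Γ))` is immediate, and `k(χ(Γ))` is dense (OWNER: helper39)
-/

set_option autoImplicit false

namespace Pool.Agent.JMQ

open Pool.Agent.TAO (OVal VPos Ctx0)
open Pool.Agent.H15JM (RVal)

universe u

variable {k K : Type u} [Field k] [Field K] [Algebra k K] {v : OVal ℝ K} {n : ℕ}
  {Γ : AddSubgroup ℝ} {χ : ℝ → K}

/-- ROW Q2. Density of a subfield `F` with immediate algebraic extension, residue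
characteristic `0`. -/
theorem dense_of_immediate (v : OVal ℝ K) (hv0 : ∀ m : ℕ, m ≠ 0 → (m : K) ≠ 0 ∧ v (m : K) = 0)
    (F : IntermediateField k K) [Algebra.IsAlgebraic F K]
    (him : ∀ x : K, x ≠ 0 → ∃ d ∈ F, d ≠ 0 ∧ (x = d ∨ v x < v (x - d)))
    (x : K) (N : ℝ) : ∃ c ∈ F, v.Ge N (x - c) := by
  have hch : CharZero K := charZero_of_inj_zero fun m hm => by
    by_contra h0
    exact (hv0 m h0).1 hm
  have halg : IsAlgebraic F.toSubfield x := (Algebra.IsAlgebraic.isAlgebraic x : IsAlgebraic F x)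
  have hval : ∀ g : K, g ≠ 0 → ∃ f ∈ F.toSubfield, f ≠ 0 ∧ (TAO.toR v) f = (TAO.toR v) g := by
    intro g hg
    obtain ⟨d, hd, hd0, h | h⟩ := him g hg
    · exact ⟨d, hd, hd0, by rw [h]⟩
    · refine ⟨d, hd, hd0, ?_⟩
      by_cases h0 : g - d = 0
      · rw [sub_eq_zero.mp h0]
      · have h1 := (v.add_of_lt hg (neg_ne_zero.mpr h0) (by rw [v.map_neg _ h0]; exact h)).2
        rw [show g + -(g - d) = d by ring] at h1
        exact h1
  have hres : ∀ g : K, g ≠ 0 → (TAO.toR v) g = 0 →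
      ∃ c ∈ F.toSubfield, g = c ∨ 0 < (TAO.toR v) (g - c) := by
    intro g hg hg0
    obtain ⟨d, hd, _, h⟩ := him g hg
    refine ⟨d, hd, ?_⟩
    rcases h with h | h
    · exact Or.inl h
    · right
      have h1 : v g = 0 := hg0
      rw [h1] at h
      exact h
  obtain ⟨c, hc, h⟩ := H15JM.dense_of_immediate (TAO.toR v) (fun m hm => (hv0 m hm).2)
    F.toSubfield hval hres x halg N
  exact ⟨c, hc, fun h0 => h h0⟩

/-- The extension `K / k(χ(Γ))` is immediate. -/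
theorem immediate (h : Ctx0 k v n) (S : Sect v n Γ χ) (x : K) (hx : x ≠ 0) :
    ∃ d ∈ FX k Γ χ, d ≠ 0 ∧ (x = d ∨ v x < v (x - d)) := by
  have hγ := S.all x hx
  have hχ := S.ne _ hγ
  have hy : x / χ (v x) ≠ 0 := div_ne_zero hx hχ
  have hvy : v (x / χ (v x)) = 0 := by rw [v.map_div hx hχ, S.val _ hγ, sub_self]
  obtain ⟨c, hc, hpos⟩ := h.res _ hy hvy
  have hc' : algebraMap k K c ≠ 0 := (map_ne_zero _).mpr hc
  have hmem : χ (v x) ∈ FX k Γ χ := IntermediateField.subset_adjoin k _ ⟨v x, hγ, rfl⟩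
  refine ⟨algebraMap k K c * χ (v x), (FX k Γ χ).mul_mem ((FX k Γ χ).algebraMap_mem c) hmem,
    mul_ne_zero hc' hχ, ?_⟩
  have he : x - algebraMap k K c * χ (v x) = χ (v x) * (x / χ (v x) - algebraMap k K c) := by
    field_simp
  by_cases h0 : x / χ (v x) - algebraMap k K c = 0
  · left
    rw [h0, mul_zero] at he
    exact sub_eq_zero.mp he
  · right
    rw [he, v.map_mul hχ h0, S.val _ hγ]
    linarith [hpos h0]

theorem natCast_val [CharZero k] (h : Ctx0 k v n) (m : ℕ) (hm : m ≠ 0) :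
    (m : K) ≠ 0 ∧ v (m : K) = 0 := by
  have hm' : (m : k) ≠ 0 := by exact_mod_cast hm
  have he : (m : K) = algebraMap k K (m : k) := by simp
  rw [he]
  exact ⟨(map_ne_zero _).mpr hm', h.triv _ hm'⟩

/-- `k(χ(Γ))` is dense in `K`. -/
theorem dense_FX [CharZero k] (h : Ctx0 k v n) (S : Sect v n Γ χ)
    [Algebra.IsAlgebraic (FX k Γ χ) K] (x : K) (N : ℝ) : ∃ c ∈ FX k Γ χ, v.Ge N (x - c) :=
  dense_of_immediate v (natCast_val h) (FX k Γ χ) (immediate h S) x N

end Pool.Agent.JMQ
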